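import Pool.Agent.Y605.SC.Red
import Pool.Agent.Y605.NS.Red

/-!
# Short alternating cycles cannot be approximated
-/

set_option autoImplicit false

namespace Pool.Agent.Y605.SC

open Pool.Agent.H586R2.Sac Pool.Agent.NPC

theorem HasShortAltCycle.mono {V : Type} {G : SimpleGraph V} {L L' : ℕ}
    (h : HasShortAltCycle G L) (hL : L ≤ L') : HasShortAltCycle G L' := by
  obtain ⟨M, hM, v, C, hC, h1, h2⟩ := h
  exact ⟨M, hM, v, C, hC, h1.trans hL, h2⟩

/-- the length of the paths -/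
def TT (k : ℕ) (φ : F3) : ℕ := (20 * (2 * hh φ) ^ 2) ^ k

theorem uhh : UPoly (fun φ : F3 => 2 * hh φ) := (UPoly.const 2).mul (UPoly.length xlist_poly)

theorem uTT (k : ℕ) : UPoly (TT k) := by
  have h := UPoly.eval uhh (((Polynomial.C 20 * Polynomial.X ^ 2 : Polynomial ℕ)) ^ k)
  have e : (fun φ => (((Polynomial.C 20 * Polynomial.X ^ 2 : Polynomial ℕ)) ^ k).eval
      (2 * hh φ)) = TT k := by
    funext φ
    unfold TT
    simp
  rw [← e]
  exact h

/-- the instance -/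
def redK (k : ℕ) (φ : F3) : Inst := redH (TT k φ) (2 * hh φ) φ

theorem le_TT {k : ℕ} (hk : 1 ≤ k) (φ : F3) : 2 * hh φ ≤ TT k φ := by
  unfold TT
  have h0 := hh_pos φ
  have h1 : 1 ≤ 20 * (2 * hh φ) ^ 2 := Nat.succ_le_of_lt (by positivity)
  have h2 : 2 * hh φ ≤ 20 * (2 * hh φ) ^ 2 := by nlinarith
  calc 2 * hh φ ≤ (20 * (2 * hh φ) ^ 2) ^ 1 := by rw [pow_one]; exact h2
    _ ≤ (20 * (2 * hh φ) ^ 2) ^ k := Nat.pow_le_pow_right h1 hk

/-- The promise problem with a gap. -/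
theorem hardPr_gap (k : ℕ) (hk : 1 ≤ k) : HardPr
    (fun I : Inst => I.Valid ∧ I.graph.IsBipartite ∧ HasPerfectMatching I.graph ∧
      I.1.length ≤ 20 * I.2 * (20 * I.2 ^ 2) ^ k ∧
      (HasShortAltCycle I.graph ((20 * I.2 ^ 2) ^ k) → HasShortAltCycle I.graph I.2))
    (fun I => HasShortAltCycle I.graph I.2) := by
  have key1 : ∀ φ : F3, SAT3 φ ↔ HasShortAltCycle (redK k φ).graph (2 * hh φ) := by
    intro φ
    have h := le_TT hk φ
    exact redH_correct (TT k φ) (2 * hh φ) φ le_rfl (by omega)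
  have key2 : ∀ φ : F3, SAT3 φ ↔ HasShortAltCycle (redK k φ).graph (TT k φ) := by
    intro φ
    have h := le_TT hk φ
    exact redH_correct (TT k φ) (2 * hh φ) φ h (by omega)
  refine hardPr_SAT3b.trans (f := redK k) ?_ ?_ (fun φ _ => key1 φ)
  · unfold redK
    exact redH_poly (uTT k) uhh.toPoly
  · intro φ _
    refine ⟨redH_valid _ φ, redH_bipartite _ _ φ, redH_perfect _ _ φ, ?_, ?_⟩
    · show (redH (TT k φ) (2 * hh φ) φ).1.length ≤ 20 * (2 * hh φ) * TT k φ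
      rw [length_redH]
      have h := le_TT hk φ
      have h0 := hh_pos φ
      exact card_le (by omega) φ
    · intro h
      exact (key1 φ).1 ((key2 φ).2 h)

/-- **The gap.** -/
theorem gap {ε : ℝ} (hε : 0 < ε) (hε1 : ε ≤ 1) (L : Set (List Bool)) (hL : InNP L) :
    ∃ f : List Bool → Inst, PolyTime (fun w => bits (f w)) ∧
      ∀ w, (f w).Valid ∧ (f w).graph.IsBipartite ∧ HasPerfectMatching (f w).graph ∧
        (w ∈ L → HasShortAltCycle (f w).graph (f w).2) ∧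
        (w ∉ L → ∀ l : ℕ, HasShortAltCycle (f w).graph l →
          ((f w).2 : ℝ) * ((f w).1.length : ℝ) ^ (1 - ε) < l) := by
  obtain ⟨k, hk1, hk⟩ := NS.exists_k hε
  obtain ⟨f, hf, hpr, hfL⟩ := hardPr_gap k hk1 L hL
  refine ⟨f, PC.toPolyTime hf, fun w => ?_⟩
  obtain ⟨h1, h2, h3, h4, h5⟩ := hpr w
  refine ⟨h1, h2, h3, (hfL w).1, ?_⟩
  intro hw l hl
  have h6 : (20 * (f w).2 ^ 2) ^ k < l := by
    by_contra hc
    rw [not_lt] at hc
    exact hw ((hfL w).2 (h5 (HasShortAltCycle.mono hl hc)))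
  have h7 := NS.ratio hε hε1 hk h1.2.2.2.1 rfl h4
  have h8 : (((20 * (f w).2 ^ 2) ^ k : ℕ) : ℝ) < l := by exact_mod_cast h6
  exact h7.trans_lt h8

/-- The number `v` approximates the length of a shortest alternating cycle with the factor `r`:
either `v = 0` and there is no alternating cycle, or there is an alternating cycle of length at most
`v`, and `v` is at most `r` times the length of every alternating cycle. -/
def ApproxValue {V : Type} (G : SimpleGraph V) (r : ℝ) (v : ℕ) : Prop :=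
  (v = 0 ∧ ∀ l, ¬ HasShortAltCycle G l) ∨
    (0 < v ∧ HasShortAltCycle G v ∧ ∀ l : ℕ, HasShortAltCycle G l → (v : ℝ) ≤ r * l)

theorem poly_pow {α : Type} [TEnc α] {f : α → ℕ} (hf : NPC.Poly f) :
    ∀ k : ℕ, NPC.Poly (fun a => f a ^ k)
  | 0 => (NPC.Poly.const 1).congr fun a => (pow_zero _).symm
  | k + 1 => (NPC.Poly.mul (poly_pow hf k) hf).congr fun a => (pow_succ _ _).symm

/-- **No approximation.** -/
theorem no_approx {ε : ℝ} (hε : 0 < ε) (hε1 : ε ≤ 1) {A : List Bool → List Bool} (hA : PolyTime A)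
    (hAc : ∀ I : Inst, I.Valid → I.graph.IsBipartite → HasPerfectMatching I.graph →
      ∃ v : ℕ, ApproxValue I.graph ((I.1.length : ℝ) ^ (1 - ε)) v ∧ A (bits I.1) = bits v) :
    ∀ L : Set (List Bool), InNP L → InP L := by
  obtain ⟨k, hk1, hk⟩ := NS.exists_k hε
  refine Pool.Agent.NPC.H598R2.collapse_out (β := ℕ) (hardPr_gap k hk1) hA
    (d := fun p => decide (0 < p.1) && decide (p.1 ≤ (20 * p.2 ^ 2) ^ k)) ?_ ?_
  · have h1 : NPC.Poly (fun p : ℕ × ℕ => p.1) := NPC.Poly.fst NPC.Poly.id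
    have h2 : NPC.Poly (fun p : ℕ × ℕ => p.2) := NPC.Poly.snd NPC.Poly.id
    exact NPC.Poly.and (NPC.Poly.decide_lt (NPC.Poly.const 0) h1)
      (NPC.Poly.decide_le h1 (poly_pow (NPC.Poly.mul (NPC.Poly.const 20) (poly_pow h2 2)) k))
  · rintro ⟨M, s⟩ ⟨h1, h2, h3, h4, h5⟩
    obtain ⟨v, hv, hbits⟩ := hAc (M, s) h1 h2 h3
    refine ⟨v, hbits, ?_⟩
    rw [Bool.and_eq_true, decide_eq_true_eq, decide_eq_true_eq]
    constructor
    · intro hs
      rcases hv with ⟨-, hv⟩ | ⟨hv0, -, hv⟩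
      · exact absurd hs (hv _)
      · refine ⟨hv0, ?_⟩
        have h6 := hv s hs
        have h7 := NS.ratio hε hε1 hk h1.2.2.2.1 rfl h4
        have h8 : (v : ℝ) ≤ (((20 * s ^ 2) ^ k : ℕ) : ℝ) := by
          calc (v : ℝ) ≤ ((M, s).1.length : ℝ) ^ (1 - ε) * s := h6
            _ = s * ((M, s).1.length : ℝ) ^ (1 - ε) := mul_comm _ _
            _ ≤ (((20 * s ^ 2) ^ k : ℕ) : ℝ) := h7
        exact_mod_cast h8
    · rintro ⟨hv0, hvt⟩
      rcases hv with ⟨hv, -⟩ | ⟨-, hv, -⟩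
      · exact absurd hv (by dsimp only at hv0 ⊢; omega)
      · exact h5 (HasShortAltCycle.mono hv hvt)

end Pool.Agent.Y605.SC
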