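import Pool.Agent.H586R2.Sac.PolyRed
import Pool.Agent.H598R2.Naming2

/-!
# Short alternating cycles: a gap

The graphs of the reduction to the shortest alternating cycle problem (`Pool.Agent.H586R2.Sac`),
with long paths of any length.
-/

set_option autoImplicit false
set_option linter.unusedSectionVars false

namespace Pool.Agent.Y605.SC

open Pool.Agent.H586R2.Sac Pool.Agent.NPC

/-- the list of all vertices of the graph -/
def glistH (h : ℕ) (φ : F3) : List GD :=
  (xlist φ).flatMap (fun x => [((false, (x, x), false, 0) : GD), (false, (x, x), true, 0)]) ++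
    (plist φ).flatMap (fun p => (List.range (2 * h + 1)).flatMap
      (fun i => [((true, p, false, i) : GD), (true, p, true, i)]))

theorem mem_glistH {h : ℕ} {φ : F3} {a : GD} : a ∈ glistH h φ ↔
    (∃ x, XMem (3 * φ.length) x ∧ ∃ s, a = (false, (x, x), s, 0)) ∨
    (∃ p, PMem (3 * φ.length) (lit φ) p ∧ ∃ i < 2 * h + 1, ∃ s, a = (true, p, s, i)) := by
  simp only [glistH, List.mem_append, List.mem_flatMap, mem_xlist, mem_plist, List.mem_cons,
    List.not_mem_nil, or_false, List.mem_range]
  constructor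
  · rintro (⟨x, hx, h | h⟩ | ⟨p, hp, i, hi, h | h⟩)
    · exact Or.inl ⟨x, hx, _, h⟩
    · exact Or.inl ⟨x, hx, _, h⟩
    · exact Or.inr ⟨p, hp, i, hi, _, h⟩
    · exact Or.inr ⟨p, hp, i, hi, _, h⟩
  · rintro (⟨x, hx, s, h⟩ | ⟨p, hp, i, hi, s, h⟩)
    · cases s
      · exact Or.inl ⟨x, hx, Or.inl h⟩
      · exact Or.inl ⟨x, hx, Or.inr h⟩
    · cases s
      · exact Or.inr ⟨p, hp, i, hi, Or.inl h⟩
      · exact Or.inr ⟨p, hp, i, hi, Or.inr h⟩

theorem nodup_glistH (h : ℕ) (φ : F3) : (glistH h φ).Nodup := by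
  unfold glistH
  rw [List.nodup_append]
  refine ⟨?_, ?_, ?_⟩
  · rw [List.nodup_flatMap]
    constructor
    · intro x _
      simp
    · refine (nodup_xlist φ).imp ?_
      intro x y hne
      simp only [Function.onFun, List.Disjoint]
      intro a ha hb
      simp only [List.mem_cons, List.not_mem_nil, or_false] at ha hb
      rcases ha with rfl | rfl <;> rcases hb with h | h <;> simp only [Prod.mk.injEq] at h <;>
        exact hne h.2.1.1
  · rw [List.nodup_flatMap]
    constructor
    · intro p _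
      rw [List.nodup_flatMap]
      constructor
      · intro i _
        simp
      · refine List.nodup_range.imp ?_
        intro x y hne
        simp only [Function.onFun, List.Disjoint]
        intro a ha hb
        simp only [List.mem_cons, List.not_mem_nil, or_false] at ha hb
        rcases ha with rfl | rfl <;> rcases hb with h | h <;> simp only [Prod.mk.injEq] at h <;>
          exact hne h.2.2.2
    · refine (nodup_plist φ).imp ?_
      intro x y hne
      simp only [Function.onFun, List.Disjoint]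
      intro a ha hb
      simp only [List.mem_cons, List.not_mem_nil, or_false, List.mem_flatMap] at ha hb
      obtain ⟨i, _, ha⟩ := ha
      obtain ⟨i', _, hb⟩ := hb
      rcases ha with rfl | rfl <;> rcases hb with h | h <;> simp only [Prod.mk.injEq] at h <;>
        exact hne h.2.1
  · rintro a ha b hb rfl
    simp only [List.mem_cons, List.not_mem_nil, or_false, List.mem_flatMap] at ha hb
    obtain ⟨x, _, ha⟩ := ha
    obtain ⟨p, _, i, _, hb⟩ := hb
    rcases ha with rfl | rfl <;> rcases hb with h | h <;> simp at h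

/-- the reduction -/
def redH (h L : ℕ) (φ : F3) : Inst :=
  ((glistH h φ).map (fun a => (glistH h φ).map (fun b => decide (adjG (tri φ).length (h) a b))),
    L)

theorem length_redH (h L : ℕ) (φ : F3) : (redH h L φ).1.length = (glistH h φ).length := by simp [redH]

theorem entry_redH (h L : ℕ) (φ : F3) (u v : ℕ) (hu : u < (glistH h φ).length) (hv : v < (glistH h φ).length) :
    (redH h L φ).entry u v = decide (adjG (tri φ).length (h) (glistH h φ)[u] (glistH h φ)[v]) := by
  unfold Inst.entry redH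
  simp [List.getD, hu, hv]

section Iso

variable (h L : ℕ) (φ : F3)

/-- descriptor of a vertex -/
def codeH : Vt (XX φ) (PP φ) (h) → GD
  | .inl (x, s) => (false, (x.1, x.1), s, 0)
  | .inr (p, s, i) => (true, p.1, s, (i : ℕ))

theorem codeH_mem (v : Vt (XX φ) (PP φ) (h)) : codeH h φ v ∈ glistH h φ := by
  rw [mem_glistH]
  rcases v with ⟨x, s⟩ | ⟨p, s, i⟩
  · exact Or.inl ⟨x.1, x.2, s, rfl⟩
  · exact Or.inr ⟨p.1, p.2, i, i.2, s, rfl⟩

theorem codeH_inj : Function.Injective (codeH h φ) := by
  rintro (⟨x, s⟩ | ⟨p, s, i⟩) (⟨y, s'⟩ | ⟨p', s', i'⟩) h <;>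
    simp only [codeH, Prod.mk.injEq] at h
  · obtain ⟨_, ⟨h1, _⟩, h2, _⟩ := h
    rw [Subtype.ext h1, h2]
  · exact absurd h.1 (by decide)
  · exact absurd h.1 (by decide)
  · obtain ⟨_, h1, h2, h3⟩ := h
    rw [Subtype.ext h1, h2, Fin.ext h3]

theorem exists_codeH {a : GD} (ha : a ∈ glistH h φ) : ∃ v, codeH h φ v = a := by
  rw [mem_glistH] at ha
  rcases ha with ⟨x, hx, s, rfl⟩ | ⟨p, hp, i, hi, s, rfl⟩
  · exact ⟨.inl (⟨x, hx⟩, s), rfl⟩
  · exact ⟨.inr (⟨p, hp⟩, s, ⟨i, hi⟩), rfl⟩

theorem relG_codeH (a b : Vt (XX φ) (PP φ) (h)) :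
    relG (3 * φ.length) (h) (codeH h φ a) (codeH h φ b) ↔ (dg φ).rel (h) a b := by
  rcases a with ⟨x, s⟩ | ⟨p, s, i⟩ <;> rcases b with ⟨y, s'⟩ | ⟨p', s', i'⟩
  · simp only [relG, codeH, Dig.rel]
    constructor
    · rintro (⟨_, _, h1, h2, h3⟩ | ⟨_, h, _⟩ | ⟨h, _⟩)
      · exact ⟨h1, h2, h3.imp Subtype.ext id⟩
      · exact absurd h (by decide)
      · exact absurd h (by decide)
    · rintro ⟨h1, h2, h3⟩
      exact Or.inl ⟨trivial, trivial, h1, h2, h3.imp (congrArg Subtype.val) id⟩
  · simp only [relG, codeH, Dig.rel]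
    constructor
    · rintro (⟨_, h, _⟩ | ⟨_, _, h1, h2⟩ | ⟨h, _⟩)
      · exact absurd h (by decide)
      · exact ⟨h1, h2.imp (fun h => ⟨Subtype.ext h.1, h.2⟩) (fun h => ⟨Subtype.ext h.1, h.2⟩)⟩
      · exact absurd h (by decide)
    · rintro ⟨h1, h2⟩
      exact Or.inr (Or.inl ⟨trivial, trivial, h1, h2.imp (fun h => ⟨congrArg Subtype.val h.1, h.2⟩)
        (fun h => ⟨congrArg Subtype.val h.1, h.2⟩)⟩)
  · simp only [relG, codeH, Dig.rel]
    constructor
    · rintro (⟨h, _⟩ | ⟨h, _⟩ | ⟨_, h, _⟩) <;> exact absurd h (by decide)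
    · exact False.elim
  · simp only [relG, codeH, Dig.rel]
    constructor
    · rintro (⟨h, _⟩ | ⟨h, _⟩ | ⟨_, _, h1, h2, h3⟩)
      · exact absurd h (by decide)
      · exact absurd h (by decide)
      · exact ⟨Subtype.ext h1, h2, h3⟩
    · rintro ⟨h1, h2, h3⟩
      exact Or.inr (Or.inr ⟨trivial, trivial, congrArg Subtype.val h1, h2, h3⟩)

theorem adjG_codeH (a b : Vt (XX φ) (PP φ) (h)) :
    adjG (tri φ).length (h) (codeH h φ a) (codeH h φ b) ↔ ((dg φ).graph (h)).Adj a b := by
  unfold Dig.graph adjG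
  rw [SimpleGraph.fromRel_adj, length_tri, relG_codeH, relG_codeH]
  constructor
  · intro h
    refine ⟨?_, h⟩
    rintro rfl
    rw [or_self] at h
    rcases a with ⟨x, s⟩ | ⟨p, s, i⟩
    · obtain ⟨h1, h2, _⟩ := h
      rw [h1] at h2
      exact absurd h2 (by decide)
    · obtain ⟨_, _, h1⟩ := h
      omega
  · exact fun h => h.2

theorem exists_equivH : ∃ e : Vt (XX φ) (PP φ) (h) ≃ Fin (redH h L φ).1.length,
    ∀ v, (glistH h φ)[(e v : ℕ)]? = some (codeH h φ v) := by
  have key : ∀ v, ∃ u : Fin (redH h L φ).1.length, (glistH h φ)[(u : ℕ)]? = some (codeH h φ v) := by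
    intro v
    obtain ⟨i, hi, h⟩ := List.getElem_of_mem (codeH_mem h φ v)
    exact ⟨⟨i, by rw [length_redH]; exact hi⟩, by rw [List.getElem?_eq_getElem hi, h]⟩
  choose e he using key
  have hinj : Function.Injective e := by
    intro v w hvw
    apply codeH_inj h φ
    have h1 := he v
    rw [hvw, he w] at h1
    exact (Option.some.inj h1).symm
  have hsurj : Function.Surjective e := by
    intro u
    have hu : (u : ℕ) < (glistH h φ).length := by rw [← length_redH]; exact u.2
    obtain ⟨v, hv⟩ := exists_codeH h φ (List.getElem_mem hu)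
    refine ⟨v, ?_⟩
    have h1 := he v
    have hev : (e v : ℕ) < (glistH h φ).length := by rw [← length_redH]; exact (e v).2
    rw [hv, List.getElem?_eq_getElem hev, Option.some.injEq] at h1
    exact Fin.ext ((List.Nodup.getElem_inj_iff (nodup_glistH h φ)).1 h1)
  exact ⟨Equiv.ofBijective e ⟨hinj, hsurj⟩, he⟩

theorem exists_isoH : Nonempty ((dg φ).graph (h) ≃g (redH h L φ).graph) := by
  obtain ⟨e, he⟩ := exists_equivH h L φ
  refine ⟨⟨e, ?_⟩⟩
  intro v w
  have hv : (e v : ℕ) < (glistH h φ).length := by rw [← length_redH]; exact (e v).2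
  have hw : (e w : ℕ) < (glistH h φ).length := by rw [← length_redH]; exact (e w).2
  have h1 := he v
  have h2 := he w
  rw [List.getElem?_eq_getElem hv, Option.some.injEq] at h1
  rw [List.getElem?_eq_getElem hw, Option.some.injEq] at h2
  unfold Inst.graph
  rw [SimpleGraph.fromRel_adj, entry_redH h L φ _ _ hv hw, entry_redH h L φ _ _ hw hv, h1, h2,
    decide_eq_true_eq, decide_eq_true_eq, adjG_codeH, adjG_codeH]
  constructor
  · rintro ⟨_, h | h⟩
    · exact h
    · exact h.symm
  · intro h
    exact ⟨fun heq => h.ne (e.injective heq), Or.inl h⟩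

theorem redH_correct {t : ℕ} (h1 : 2 * hh φ ≤ t) (h2 : t < 2 * h + 1) :
    IsSat3 φ ↔ HasShortAltCycle (redH h L φ).graph t := by
  obtain ⟨f⟩ := exists_isoH h L φ
  rw [← choice_iff, ← closed_iff, ← Dig.hasShort_iff (h := h) (L := t) (dg φ)
    (by rw [card_XX]; exact h1) h2]
  exact ⟨fun h => h.map f, fun h => h.map f.symm⟩

theorem redH_valid : (redH h (2 * hh φ) φ).Valid := by
  refine ⟨?_, ?_, ?_, ?_, ?_⟩
  · intro row hrow
    unfold redH at hrow
    rw [List.mem_map] at hrow
    obtain ⟨a, _, rfl⟩ := hrow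
    rw [length_redH, List.length_map]
  · intro u hu v hv
    rw [length_redH] at hu hv
    rw [entry_redH h _ φ u v hu hv, entry_redH h _ φ v u hv hu]
    simp only [adjG_comm (a := (glistH h φ)[u])]
  · intro u hu
    rw [length_redH] at hu
    rw [entry_redH h _ φ u u hu hu, decide_eq_false_iff_not]
    exact adjG_irr
  · have := hh_pos φ
    show 1 ≤ 2 * hh φ
    omega
  · rw [length_redH]
    show 2 * hh φ ≤ (glistH h φ).length
    unfold glistH
    rw [List.length_append, List.length_flatMap]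
    have : (List.map (fun x : XD => ([((false, (x, x), false, 0) : GD),
        (false, (x, x), true, 0)]).length) (xlist φ)).sum = 2 * hh φ := by
      simp [hh, Nat.mul_comm]
    rw [this]
    exact Nat.le_add_right _ _

theorem redH_bipartite : (redH h L φ).graph.IsBipartite := by
  obtain ⟨f⟩ := exists_isoH h L φ
  have hc : ((dg φ).graph (h)).Coloring Bool := by
    refine SimpleGraph.Coloring.mk (fun v => match v with
      | .inl (_, s) => s
      | .inr (_, s, i) => if (i : ℕ) % 2 = 0 then !s else s) ?_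
    rintro (⟨x, s⟩ | ⟨p, s, i⟩) (⟨y, s'⟩ | ⟨p', s', i'⟩) h
    · rw [Dig.adj_ll] at h
      rcases h with ⟨h1, h2, _⟩ | ⟨h1, h2, _⟩ <;> simp [h1, h2]
    · rw [Dig.adj_lr] at h
      obtain ⟨rfl, h⟩ := h
      have : (i' : ℕ) % 2 = 0 := by omega
      simp [this]
    · rw [Dig.adj_rl] at h
      obtain ⟨rfl, h⟩ := h
      have : (i : ℕ) % 2 = 0 := by omega
      simp [this]
    · rw [Dig.adj_rr] at h
      obtain ⟨_, rfl, h⟩ := h
      rcases Nat.mod_two_eq_zero_or_one i with h1 | h1 <;>
        rcases Nat.mod_two_eq_zero_or_one i' with h2 | h2 <;>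
        first
        | (exfalso; omega)
        | simp [h1, h2]
  have h2 : ((dg φ).graph (h)).Colorable 2 := hc.colorable
  exact SimpleGraph.Colorable.of_hom f.symm.toHom h2

theorem redH_perfect : HasPerfectMatching (redH h L φ).graph := by
  classical
  obtain ⟨f⟩ := exists_isoH h L φ
  obtain ⟨μ, h1, h2⟩ := (dg φ).exists_partner_fun (h) ∅
  have h3 : ∀ v, ((dg φ).graph (h)).Adj v (μ v) := fun v => (dg φ).mrel_adj (h) ∅ (h1 v)
  have h4 : ∀ v, (redH h L φ).graph.Adj v (f (μ (f.symm v))) := by
    intro v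
    have := f.map_adj_iff.2 (h3 (f.symm v))
    rwa [show f (f.symm v) = v from f.apply_symm_apply v] at this
  have h5 : ∀ v, f (μ (f.symm (f (μ (f.symm v))))) = v := by
    intro v
    rw [show f.symm (f (μ (f.symm v))) = μ (f.symm v) from f.symm_apply_apply _, h2]
    exact f.apply_symm_apply v
  obtain ⟨hm, _⟩ := partner_matching (fun v => f (μ (f.symm v))) h4 h5
  refine ⟨_, hm, fun v => ⟨s(v, f (μ (f.symm v))), Finset.mem_image_of_mem _ (Finset.mem_univ _),
    by simp⟩⟩

end Iso

/-! ### Polynomial time -/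

theorem glistH_poly {h : F3 → ℕ} (hh : UPoly h) : NPC.Poly (fun φ => glistH (h φ) φ) := by
  unfold glistH
  refine NPC.Poly.append ?_ ?_
  · refine NPC.Poly.flatMap (F := fun (_ : F3) (x : XD) =>
      [((false, (x, x), false, 0) : GD), (false, (x, x), true, 0)]) xlist_poly ?_
    have hx : NPC.Poly (fun q : F3 × XD => q.2) := NPC.Poly.snd NPC.Poly.id
    have hy : ∀ b : Bool, NPC.Poly (fun q : F3 × XD => ((false, (q.2, q.2), b, 0) : GD)) :=
      fun b => NPC.Poly.pair (NPC.Poly.const false) (NPC.Poly.pair (NPC.Poly.pair hx hx)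
        (NPC.Poly.pair (NPC.Poly.const b) (NPC.Poly.const 0)))
    exact NPC.Poly.cons (hy false) (NPC.Poly.cons (hy true) (NPC.Poly.const []))
  · refine NPC.Poly.flatMap (F := fun (φ : F3) (p : XD × XD) =>
      (List.range (2 * h φ + 1)).flatMap
        (fun i => [((true, p, false, i) : GD), (true, p, true, i)])) plist_poly ?_
    refine NPC.Poly.flatMap (F := fun (q : F3 × (XD × XD)) (i : ℕ) =>
      [((true, q.2, false, i) : GD), (true, q.2, true, i)])
      (UPoly.range (((UPoly.const 2).mul (hh.comp (NPC.Poly.fst NPC.Poly.id))).add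
        (UPoly.const 1))) ?_
    have hp : NPC.Poly (fun q : (F3 × (XD × XD)) × ℕ => q.1.2) :=
      NPC.Poly.snd (NPC.Poly.fst NPC.Poly.id)
    have hi : NPC.Poly (fun q : (F3 × (XD × XD)) × ℕ => q.2) := NPC.Poly.snd NPC.Poly.id
    have hy : ∀ b : Bool,
        NPC.Poly (fun q : (F3 × (XD × XD)) × ℕ => ((true, q.1.2, b, q.2) : GD)) :=
      fun b => NPC.Poly.pair (NPC.Poly.const true) (NPC.Poly.pair hp
        (NPC.Poly.pair (NPC.Poly.const b) hi))
    exact NPC.Poly.cons (hy false) (NPC.Poly.cons (hy true) (NPC.Poly.const []))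

theorem redH_poly {h L : F3 → ℕ} (hh : UPoly h) (hL : NPC.Poly L) :
    NPC.Poly (fun φ => redH (h φ) (L φ) φ) := by
  unfold redH
  refine NPC.Poly.pair ?_ hL
  refine NPC.Poly.map (F := fun (φ : F3) (a : GD) =>
    (glistH (h φ) φ).map (fun b => decide (adjG (tri φ).length (h φ) a b))) (glistH_poly hh) ?_
  refine NPC.Poly.map (F := fun (p : F3 × GD) (b : GD) =>
    decide (adjG (tri p.1).length (h p.1) p.2 b))
    ((glistH_poly hh).comp (NPC.Poly.fst NPC.Poly.id)) ?_
  have h1 : NPC.Poly (fun q : (F3 × GD) × GD => q.1.1) := NPC.Poly.fst (NPC.Poly.fst NPC.Poly.id)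
  exact adj_poly (NPC.Poly.length (tri_poly.comp h1)) (hh.toPoly.comp h1)
    (NPC.Poly.snd (NPC.Poly.fst NPC.Poly.id)) (NPC.Poly.snd NPC.Poly.id)

/-! ### The number of vertices -/

theorem length_xlist (φ : F3) : hh φ = (3 * φ.length) * (3 * φ.length) + 3 * (3 * φ.length) + 2 := by
  unfold hh xlist
  simp only [List.length_append, List.length_map, List.length_range, List.length_flatMap,
    List.map_const', List.sum_replicate, smul_eq_mul, length_tri, List.length_singleton]
  ring

theorem length_plist_le (φ : F3) : (plist φ).length ≤ hh φ := by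
  rw [length_xlist]
  unfold plist
  rw [List.length_append, List.length_map, List.length_range, List.length_flatMap, length_tri]
  have h : (List.map (fun k => (((List.range (3 * φ.length)).filter
      (fun k' => decide (k < k' ∧ Contr (lit φ) k k'))).map
        (fun k' => (((3, k, k' + 1), (3, k', k + 1)) : XD × XD))).length)
        (List.range (3 * φ.length))).sum ≤ (3 * φ.length) * (3 * φ.length) := by
    refine (List.sum_le_card_nsmul _ (3 * φ.length) ?_).trans ?_
    · intro x hx
      rw [List.mem_map] at hx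
      obtain ⟨k, _, rfl⟩ := hx
      rw [List.length_map]
      refine (List.length_filter_le _ _).trans ?_
      rw [List.length_range]
    · rw [List.length_map, List.length_range, smul_eq_mul]
  omega

theorem length_glistH (h : ℕ) (φ : F3) :
    (glistH h φ).length = 2 * hh φ + (plist φ).length * ((2 * h + 1) * 2) := by
  unfold glistH hh
  rw [List.length_append, List.length_flatMap, List.length_flatMap]
  congr 1
  · simp [Nat.mul_comm]
  · have : ∀ p : XD × XD, ((List.range (2 * h + 1)).flatMap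
        (fun i => [((true, p, false, i) : GD), (true, p, true, i)])).length = (2 * h + 1) * 2 := by
      intro p
      rw [List.length_flatMap]
      simp
    simp only [this, List.map_const', List.sum_replicate, smul_eq_mul]

theorem card_le {t : ℕ} (ht : 1 ≤ t) (φ : F3) : (glistH t φ).length ≤ 20 * (2 * hh φ) * t := by
  rw [length_glistH]
  have h1 := length_plist_le φ
  have h2 : (plist φ).length * ((2 * t + 1) * 2) ≤ hh φ * ((2 * t + 1) * 2) :=
    Nat.mul_le_mul_right _ h1
  have h3 : hh φ ≤ hh φ * t := Nat.le_mul_of_pos_right _ ht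
  have h4 : hh φ * ((2 * t + 1) * 2) = 4 * (hh φ * t) + 2 * hh φ := by ring
  have h5 : 20 * (2 * hh φ) * t = 40 * (hh φ * t) := by ring
  omega

end Pool.Agent.Y605.SC
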